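import Mathlib
import Pool.Agent.H95.VG.Targets3

/-!
# VG module EQD: quantitative equidistribution
-/

open MeasureTheory Set Filter Topology
open scoped ENNReal NNReal ContDiff ComplexConjugate

namespace Pool.Agent.H39.VG

open Pool.Agent.H95.VG

variable {n : ℕ}

lemma cd_fderiv_apply {p : V n → ℝ} (hp : ContDiff ℝ ∞ p) (v : V n) :
    ContDiff ℝ ∞ (fun x => fderiv ℝ p x v) :=
  (hp.fderiv_right (m := ∞) (by simp)).clm_apply contDiff_const

lemma lev_continuous {p : V n → ℝ} (hp : ContDiff ℝ ∞ p) (v : V n) :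
    Continuous (fun y => lev p y v) := by
  unfold lev
  have h : ∀ u : V n, Continuous (fun z => fderiv ℝ (fun x => fderiv ℝ p x u) z u) := fun u =>
    (cd_fderiv_apply (cd_fderiv_apply hp u) u).continuous
  exact ((h v).add (h (Complex.I • v))).const_smul (4 : ℝ)⁻¹

lemma lev_support {p : V n → ℝ} {K : Set (V n)} (hK : IsClosed K)
    (hp : ∀ y, p y ≠ 0 → y ∈ K) (v y : V n) (hy : lev p y v ≠ 0) : y ∈ K := by
  have h0 : tsupport p ⊆ K := closure_minimal (fun y hy => hp y hy) hK
  have h1 : ∀ u, tsupport (fun z => fderiv ℝ (fun x => fderiv ℝ p x u) z u) ⊆ K := fun u =>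
    ((tsupport_fderiv_apply_subset ℝ u).trans (tsupport_fderiv_apply_subset ℝ u)).trans h0
  by_contra hyK
  apply hy
  have h2 : ∀ u, fderiv ℝ (fun x => fderiv ℝ p x u) y u = 0 := fun u => by
    by_contra hne
    exact hyK (h1 u (subset_tsupport _ (by simpa using hne)))
  unfold lev
  rw [h2, h2]
  simp

theorem eqd (hRNC : T_RNC) (hUNQ : T_UNQ) : T_EQD := by
  intro n X _ _ _ _ _ _ ι _ A w p δ hn hG hpc hps hδ
  have hpos : 0 < ∑ a, ∫ y, w a y := by
    obtain ⟨x⟩ : Nonempty X := inferInstance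
    obtain ⟨a, -, -⟩ := A.cover x
    have hi : ∀ a, 0 < ∫ y, w a y := fun a => by
      refine (hG.smooth a).continuous.integral_pos_of_hasCompactSupport_nonneg_nonzero ?_
        (hG.nonneg a) (x := 0) (hG.pos a 0 (by simp)).ne'
      exact HasCompactSupport.intro (isCompact_closedBall (0 : V n) (3 / 2)) fun x hx => by
        by_contra h
        exact hx (hG.supp a x h)
    exact Finset.sum_pos (fun a _ => hi a) ⟨a, Finset.mem_univ a⟩
  refine ⟨hpos, ?_⟩
  set avg : ℝ := (∑ a, ∫ y, p a y) / (∑ a, ∫ y, w a y) with havg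
  set J := {c : ι × (V n → ℝ) // ContDiff ℝ ∞ c.2 ∧
    ∀ y, c.2 y ≠ 0 → y ∈ Metric.closedBall (0 : V n) (3 / 2)} with hJ
  set l : J → X → ℝ := fun c => rn A w (sgl c.1.1 (fun y => ∑ k, lev c.1.2 y (ek k))) with hl
  have hlc : ∀ c : J, Continuous (l c) := fun c => by
    refine (hRNC n X ι A w (sgl c.1.1 (fun y => ∑ k, lev c.1.2 y (ek k))) hG ?_ ?_).1
    · intro b
      unfold sgl
      by_cases hb : b = c.1.1
      · simp only [hb, if_true]
        exact continuous_finsetSum _ fun k _ => lev_continuous c.2.1 _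
      · simp only [hb, if_false]
        exact continuous_const
    · intro b y hy
      unfold sgl at hy
      by_cases hb : b = c.1.1
      · simp only [hb, if_true] at hy
        obtain ⟨k, -, hk⟩ := Finset.exists_ne_zero_of_sum_ne_zero hy
        exact lev_support Metric.isClosed_closedBall c.2.2 _ _ hk
      · simp [hb] at hy
  have hrc : Continuous (rn A w p) := (hRNC n X ι A w p hG hpc hps).1
  have hint : ∀ g : X → ℝ, Continuous g →
      Continuous (fun m : ProbabilityMeasure X => ∫ x, g x ∂(m : Measure X)) := fun g hg =>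
    ProbabilityMeasure.continuous_integral_continuousMap (⟨g, hg⟩ : C(X, ℝ))
  set Z' : Set (ProbabilityMeasure X) := {m | δ ≤ |∫ x, rn A w p x ∂(m : Measure X) - avg|}
    with hZ'
  have hZ'c : IsClosed Z' :=
    isClosed_le continuous_const ((hint _ hrc).sub continuous_const).abs
  set t : J × ℕ → Set (ProbabilityMeasure X) := fun i =>
    {m | |∫ x, l i.1 x ∂(m : Measure X)| ≤ 1 / ((i.2 : ℝ) + 1)} with ht
  have htc : ∀ i, IsClosed (t i) := fun i =>
    isClosed_le (hint _ (hlc i.1)).abs continuous_const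
  have hempty : Z' ∩ ⋂ i, t i = ∅ := by
    rw [Set.eq_empty_iff_forall_notMem]
    rintro m ⟨hm1, hm2⟩
    rw [Set.mem_iInter] at hm2
    have h0 : ∀ c : J, ∫ x, l c x ∂(m : Measure X) = 0 := fun c => by
      by_contra hne
      have hpos' : 0 < |∫ x, l c x ∂(m : Measure X)| := abs_pos.2 hne
      obtain ⟨k, hk⟩ := exists_nat_one_div_lt hpos'
      have := hm2 (c, k)
      have h3 : |∫ x, l c x ∂(m : Measure X)| ≤ 1 / ((k : ℝ) + 1) := this
      linarith
    have h1 := hUNQ n X ι A w (m : Measure X) hn hG inferInstance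
      (fun a q hq hqs => h0 ⟨(a, q), hq, hqs⟩) p hpc hps
    have h2 : δ ≤ |∫ x, rn A w p x ∂(m : Measure X) - avg| := hm1
    rw [h1, ← havg, sub_self, abs_zero] at h2
    linarith
  obtain ⟨u, hu⟩ := hZ'c.isCompact.elim_finite_subfamily_closed t htc hempty
  classical
  refine ⟨1 / ((u.sup (fun i => i.2) : ℕ) + 1), by positivity, u.image (fun i => i.1.1), ?_, ?_⟩
  · intro c hc
    rw [Finset.mem_image] at hc
    obtain ⟨i, -, rfl⟩ := hc
    exact i.1.2
  · intro m hm hT
    by_contra hcon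
    rw [not_le] at hcon
    have hmem : (⟨m, hm⟩ : ProbabilityMeasure X) ∈ Z' ∩ ⋂ i ∈ u, t i := by
      refine ⟨hcon.le, Set.mem_iInter₂.2 fun i hi => ?_⟩
      have h1 := hT i.1.1 (Finset.mem_image_of_mem _ hi)
      refine h1.trans ?_
      refine one_div_le_one_div_of_le (by positivity) ?_
      have : i.2 ≤ u.sup (fun i => i.2) := Finset.le_sup (f := fun i : J × ℕ => i.2) hi
      have h' : (i.2 : ℝ) ≤ ((u.sup (fun i => i.2) : ℕ) : ℝ) := by exact_mod_cast this
      linarith
    rw [hu] at hmem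
    exact hmem

end Pool.Agent.H39.VG
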