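import Mathlib
import Pool.Agent.H95.VG.Targets2

/-!
# VG module LGI: integrals of `lgd` over the unit ball
-/

open MeasureTheory Set Filter Topology
open scoped ENNReal NNReal ContDiff ComplexConjugate

namespace Pool.Agent.H39.VG

open Pool.Agent.H95.VG

variable {n : ℕ}

lemma nsq_nn (z : V n) : 0 ≤ nsq z := Finset.sum_nonneg fun i _ => by positivity

lemma nsq_cont : Continuous (nsq (n := n)) := by
  unfold nsq
  fun_prop

lemma norm_sq_le (z : V n) (i : Fin n) : ‖z i‖ ^ 2 ≤ nsq z :=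
  Finset.single_le_sum (f := fun i => ‖z i‖ ^ 2) (fun i _ => by positivity) (Finset.mem_univ i)

lemma norm_le_sqrt (z : V n) (r : ℝ) (hr : 0 ≤ r) (h : nsq z ≤ r ^ 2) : ‖z‖ ≤ r := by
  rw [pi_norm_le_iff_of_nonneg hr]
  intro i
  have h1 := norm_sq_le z i
  nlinarith [norm_nonneg (z i)]

lemma nsq_compact (r : ℝ) : IsCompact {z : V n | nsq z ≤ r} := by
  refine Metric.isCompact_of_isClosed_isBounded (isClosed_le nsq_cont continuous_const) ?_
  refine (Metric.isBounded_closedBall (x := (0 : V n)) (r := |r| + 1)).subset fun z hz => ?_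
  rw [mem_closedBall_zero_iff]
  refine norm_le_sqrt z _ (by positivity) ?_
  have h1 : nsq z ≤ r := hz
  have h2 := le_abs_self r
  nlinarith [abs_nonneg r]

lemma nsq_add_three (a b : V n) (ha : nsq a ≤ 1) (hb : nsq b ≤ 1) :
    nsq (a + (3 : ℝ) • b) ≤ 16 := by
  have h : nsq (a + (3 : ℝ) • b) ≤ 4 * nsq a + 12 * nsq b := by
    unfold nsq
    rw [Finset.mul_sum, Finset.mul_sum, ← Finset.sum_add_distrib]
    refine Finset.sum_le_sum fun i _ => ?_
    have h1 : ‖(a + (3 : ℝ) • b) i‖ ≤ ‖a i‖ + 3 * ‖b i‖ := by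
      simp only [Pi.add_apply, Pi.smul_apply]
      refine (norm_add_le _ _).trans ?_
      rw [norm_smul]
      simp
    have h0 := norm_nonneg ((a + (3 : ℝ) • b) i)
    have h2 : ‖(a + (3 : ℝ) • b) i‖ ^ 2 ≤ (‖a i‖ + 3 * ‖b i‖) ^ 2 := by gcongr
    nlinarith [sq_nonneg (‖a i‖ - ‖b i‖)]
  linarith

lemma nsq_sub_third (z a : V n) (ha : nsq a ≤ 1) (hz : nsq z ≤ 1) :
    nsq ((3 : ℝ)⁻¹ • (z - a)) ≤ 4 / 9 := by
  have h : nsq ((3 : ℝ)⁻¹ • (z - a)) ≤ 2 / 9 * nsq z + 2 / 9 * nsq a := by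
    unfold nsq
    rw [Finset.mul_sum, Finset.mul_sum, ← Finset.sum_add_distrib]
    refine Finset.sum_le_sum fun i _ => ?_
    have h1 : ‖((3 : ℝ)⁻¹ • (z - a)) i‖ ≤ 3⁻¹ * (‖z i‖ + ‖a i‖) := by
      simp only [Pi.sub_apply, Pi.smul_apply]
      rw [norm_smul, Real.norm_of_nonneg (by norm_num : (0 : ℝ) ≤ 3⁻¹)]
      gcongr
      exact norm_sub_le _ _
    have h0 := norm_nonneg (((3 : ℝ)⁻¹ • (z - a)) i)
    have h2 : ‖((3 : ℝ)⁻¹ • (z - a)) i‖ ^ 2 ≤ (3⁻¹ * (‖z i‖ + ‖a i‖)) ^ 2 := by gcongr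
    nlinarith [sq_nonneg (‖z i‖ - ‖a i‖)]
  linarith

lemma lgd_upper (hGRW : T_GRW) (d : ℕ) (P : MvPolynomial (Fin n) ℂ) (δ : ℝ) (hd : 1 ≤ d)
    (hP : P.totalDegree ≤ d) (hN : Nrm P) (h0 : 0 < δ) (h1 : δ ≤ 1) (z : V n)
    (hz : nsq z ≤ 16) : lgd P δ z ≤ Real.log 32 * d := by
  have hb : ‖MvPolynomial.eval z P‖ ≤ 4 ^ d := by
    rcases le_total (nsq z) 1 with h | h
    · exact (hN.1 z h).trans (one_le_pow₀ (by norm_num))
    · refine (hGRW n d P hP hN.1 z h).trans ?_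
      gcongr
      rw [Real.sqrt_le_left (by norm_num)]
      norm_num
      exact hz
  have h16 : ‖MvPolynomial.eval z P‖ ^ 2 + δ ^ 2 ≤ 32 ^ d := by
    have e1 : ‖MvPolynomial.eval z P‖ ^ 2 ≤ 16 ^ d := by
      calc ‖MvPolynomial.eval z P‖ ^ 2 ≤ ((4 : ℝ) ^ d) ^ 2 := by gcongr
        _ = 16 ^ d := by rw [← pow_mul, mul_comm, pow_mul]; norm_num
    have e2 : δ ^ 2 ≤ 16 ^ d := by
      have : (1 : ℝ) ≤ 16 ^ d := one_le_pow₀ (by norm_num)
      nlinarith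
    have e3 : (32 : ℝ) ^ d = 16 ^ d * 2 ^ d := by rw [← mul_pow]; norm_num
    have e4 : (2 : ℝ) ≤ 2 ^ d := by
      calc (2 : ℝ) = 2 ^ 1 := by norm_num
        _ ≤ 2 ^ d := pow_le_pow_right₀ (by norm_num) hd
    have e5 : (0 : ℝ) < 16 ^ d := by positivity
    rw [e3]
    nlinarith
  have hpos : 0 < ‖MvPolynomial.eval z P‖ ^ 2 + δ ^ 2 := by positivity
  have hlog : Real.log (‖MvPolynomial.eval z P‖ ^ 2 + δ ^ 2) ≤ d * Real.log 32 := by
    calc Real.log (‖MvPolynomial.eval z P‖ ^ 2 + δ ^ 2) ≤ Real.log (32 ^ d) :=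
          Real.log_le_log hpos h16
      _ = d * Real.log 32 := by rw [Real.log_pow]
  have h32 : 0 ≤ Real.log 32 := Real.log_nonneg (by norm_num)
  have hd0 : (0 : ℝ) ≤ d := Nat.cast_nonneg d
  unfold lgd
  nlinarith [mul_nonneg hd0 h32]

theorem lgi (hGRW : T_GRW) (hLGP : T_LGP) (hKER : T_KER) : T_LGI := by
  intro n hn
  obtain ⟨κ, Kp, hK⟩ := hKER n hn
  -- lower bound of the kernel
  obtain ⟨c0, hc0, hκc⟩ : ∃ c0 : ℝ, 0 < c0 ∧ ∀ ζ : V n, nsq ζ ≤ 4 / 9 → c0 ≤ κ ζ := by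
    have hne : {z : V n | nsq z ≤ 4 / 9}.Nonempty := ⟨0, by simp [nsq]; norm_num⟩
    obtain ⟨x, hx, hmin⟩ := (nsq_compact (n := n) (4 / 9)).exists_isMinOn hne
      (hK.smooth.1.continuous.continuousOn)
    refine ⟨κ x, (hK.pos x ?_).1, fun ζ hζ => hmin hζ⟩
    have : nsq x ≤ 4 / 9 := hx
    linarith
  set D := Module.finrank ℝ (V n) with hD
  set L := Real.log 32 with hL
  have hL0 : 0 ≤ L := Real.log_nonneg (by norm_num)
  refine ⟨L + 3 ^ D / c0 * (2 * L), fun d P δ hd hP hN h0 h1 => ?_⟩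
  have hd0 : (0 : ℝ) ≤ d := Nat.cast_nonneg d
  have hup : ∀ z : V n, nsq z ≤ 16 → lgd P δ z ≤ L * d := fun z hz =>
    lgd_upper hGRW d P δ hd hP hN h0 h1 z hz
  have hextra : 0 ≤ 3 ^ D / c0 * (2 * L) * d := by positivity
  refine ⟨?_, fun z hz => (hup z hz).trans (by nlinarith)⟩
  obtain ⟨z0, hz0, hPz0⟩ := hN.2
  obtain ⟨hsm, hpsh⟩ := hLGP n P δ h0
  set g := lgd P δ with hg
  have hgc : Continuous g := hsm.continuous
  have hκc' : Continuous κ := hK.smooth.1.continuous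
  have hg0 : 0 ≤ g z0 := by
    rw [hg]
    unfold lgd
    rw [hPz0]
    have : 0 ≤ Real.log (1 ^ 2 + δ ^ 2) := Real.log_nonneg (by nlinarith [sq_nonneg δ])
    exact div_nonneg this (by norm_num)
  have hκ0 : ∀ ζ, 0 ≤ κ ζ := fun ζ => by
    rcases lt_or_ge (nsq ζ) 1 with h | h
    · exact (hK.pos ζ h).1.le
    · rw [(hK.zero ζ h).1]
  have hKp0 : ∀ ζ, 0 ≤ Kp ζ := fun ζ => by
    rcases lt_or_ge (nsq ζ) 1 with h | h
    · exact (hK.pos ζ h).2.le
    · rw [(hK.zero ζ h).2]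
  -- compact support of the kernel
  have hcs : HasCompactSupport κ := by
    refine HasCompactSupport.intro (nsq_compact (n := n) 1) fun x hx => ?_
    have : ¬ nsq x ≤ 1 := hx
    exact (hK.zero x (by linarith)).1
  have hint : ∀ F : V n → ℝ, Continuous F → Integrable (fun ζ => κ ζ * F ζ) := fun F hF =>
    (hκc'.mul hF).integrable_of_hasCompactSupport (hcs.mul_right)
  -- the mean value inequality
  have hmean : 0 ≤ ∫ ζ, κ ζ * g (z0 + (3 : ℝ) • ζ) := by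
    have hrep := hK.rep g z0 0 3 univ isOpen_univ le_rfl (by norm_num) (subset_univ _)
      (by exact_mod_cast (contDiff_infty.1 hsm 2).contDiffOn)
    have hR : 0 ≤ 4 * ∫ s in (0 : ℝ)..3, s * ∫ ζ, Kp ζ * ∑ k, lev g (z0 + s • ζ) (ek k) := by
      refine mul_nonneg (by norm_num) (intervalIntegral.integral_nonneg (by norm_num) ?_)
      intro s hs
      refine mul_nonneg hs.1 (integral_nonneg fun ζ => mul_nonneg (hKp0 ζ)
        (Finset.sum_nonneg fun k _ => hpsh _ _))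
    rw [← hrep] at hR
    have e1 : ∫ ζ, κ ζ * (g (z0 + (3 : ℝ) • ζ) - g (z0 + (0 : ℝ) • ζ))
        = (∫ ζ, κ ζ * g (z0 + (3 : ℝ) • ζ)) - g z0 := by
      have e2 : (fun ζ => κ ζ * (g (z0 + (3 : ℝ) • ζ) - g (z0 + (0 : ℝ) • ζ)))
          = fun ζ => κ ζ * g (z0 + (3 : ℝ) • ζ) - κ ζ * g z0 := by
        funext ζ
        rw [zero_smul, add_zero]
        ring
      rw [e2, integral_sub (hint _ (by fun_prop)) (hint _ continuous_const),
        integral_mul_const, hK.one, one_mul]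
    rw [e1] at hR
    linarith
  have habs : ∫ ζ, κ ζ * |g (z0 + (3 : ℝ) • ζ)| ≤ 2 * L * d := by
    have e1 : ∫ ζ, κ ζ * |g (z0 + (3 : ℝ) • ζ)|
        ≤ ∫ ζ, (κ ζ * (2 * L * d) - κ ζ * g (z0 + (3 : ℝ) • ζ)) := by
      refine integral_mono (hint _ (by fun_prop)) ((hint _ continuous_const).sub
        (hint _ (by fun_prop))) fun ζ => ?_
      show κ ζ * |g (z0 + (3 : ℝ) • ζ)| ≤ κ ζ * (2 * L * d) - κ ζ * g (z0 + (3 : ℝ) • ζ)
      rw [← mul_sub]
      rcases lt_or_ge (nsq ζ) 1 with h | h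
      · refine mul_le_mul_of_nonneg_left ?_ (hκ0 ζ)
        have hu := hup (z0 + (3 : ℝ) • ζ) (nsq_add_three _ _ hz0 h.le)
        have hLd : 0 ≤ L * d := by positivity
        rcases abs_cases (g (z0 + (3 : ℝ) • ζ)) with ⟨e, _⟩ | ⟨e, _⟩ <;> rw [e] <;> linarith
      · rw [(hK.zero ζ h).1]
        simp
    rw [integral_sub (hint _ continuous_const) (hint _ (by fun_prop)), integral_mul_const,
      hK.one, one_mul] at e1
    linarith
  -- change of variables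
  set B := {z : V n | nsq z ≤ 1} with hB
  have hBm : MeasurableSet B := (nsq_compact (n := n) 1).measurableSet
  set F : V n → ℝ := B.indicator (fun z => |g z|) with hF
  have hcov : ∫ ζ, F (z0 + (3 : ℝ) • ζ) = |((3 : ℝ) ^ D)⁻¹| • ∫ z, F z := by
    have h := MeasureTheory.Measure.integral_comp_smul (volume : Measure (V n))
      (fun z => F (z0 + z)) 3
    rw [h, integral_add_left_eq_self]
  have hle : ∫ ζ, F (z0 + (3 : ℝ) • ζ) ≤ c0⁻¹ * ∫ ζ, κ ζ * |g (z0 + (3 : ℝ) • ζ)| := by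
    rw [← integral_const_mul]
    refine integral_mono_of_nonneg (Eventually.of_forall fun ζ => ?_)
      ((hint _ (by fun_prop)).const_mul _) (Eventually.of_forall fun ζ => ?_)
    · exact indicator_nonneg (fun z _ => abs_nonneg _) _
    · show F (z0 + (3 : ℝ) • ζ) ≤ c0⁻¹ * (κ ζ * |g (z0 + (3 : ℝ) • ζ)|)
      by_cases hmem : z0 + (3 : ℝ) • ζ ∈ B
      · rw [hF, indicator_of_mem hmem]
        have h2 := nsq_sub_third _ _ hz0 hmem
        have e : (3 : ℝ)⁻¹ • (z0 + (3 : ℝ) • ζ - z0) = ζ := by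
          rw [add_sub_cancel_left, smul_smul]
          norm_num
        rw [e] at h2
        have h3 := hκc ζ h2
        have h4 : 1 ≤ c0⁻¹ * κ ζ := by
          rw [← div_eq_inv_mul, le_div_iff₀ hc0]
          linarith
        rw [← mul_assoc]
        nlinarith [abs_nonneg (g (z0 + (3 : ℝ) • ζ))]
      · rw [hF, indicator_of_notMem hmem]
        exact mul_nonneg (inv_nonneg.2 hc0.le) (mul_nonneg (hκ0 ζ) (abs_nonneg _))
  have hfin : ∫ z in B, |g z| ≤ 3 ^ D / c0 * (2 * L) * d := by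
    rw [← integral_indicator hBm]
    have h3 : (0 : ℝ) < 3 ^ D := by positivity
    have e : ∫ z, F z = 3 ^ D * ∫ ζ, F (z0 + (3 : ℝ) • ζ) := by
      rw [hcov, abs_of_pos (by positivity), smul_eq_mul, ← mul_assoc,
        mul_inv_cancel₀ h3.ne', one_mul]
    rw [← hF, e]
    calc (3 : ℝ) ^ D * ∫ ζ, F (z0 + (3 : ℝ) • ζ)
        ≤ 3 ^ D * (c0⁻¹ * ∫ ζ, κ ζ * |g (z0 + (3 : ℝ) • ζ)|) := by gcongr
      _ ≤ 3 ^ D * (c0⁻¹ * (2 * L * d)) := by gcongr
      _ = 3 ^ D / c0 * (2 * L) * d := by ring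
  rw [← ofReal_integral_eq_lintegral_ofReal]
  · refine ENNReal.ofReal_le_ofReal (hfin.trans ?_)
    have : 0 ≤ L * d := by positivity
    linarith
  · exact (hgc.abs.continuousOn).integrableOn_compact (nsq_compact 1)
  · exact Eventually.of_forall fun z => abs_nonneg _

end Pool.Agent.H39.VG
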